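import Pool.Agent.Helper34.FB.Goals

/-!
# Packet FB-MINRED: the minimal model of a homotopy action on a finite free complex
-/

set_option autoImplicit false

namespace Pool.Agent.Helper59.FB

open IsLocalRing Pool.Agent.Helper26.DA Pool.Agent.Helper34.FB

universe u v w

section

variable {A : Type u} [CommRing A] {B : Type v} [CommRing B] [Algebra A B] {p : ℕ}

/-- the transfer of a homotopy action to a retract -/
noncomputable def retr (H : HA.{u, v, w} A B p) (N : Type w) [AddCommGroup N] [Module A N] [Module.Finite A N]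
    [Module.Free A N] (ι : N →ₗ[A] H.M) (ε : H.M →ₗ[A] N) (hr : ∀ z, ε (ι z) = z)
    (hp : ∀ i z, ι (ε (H.pr i z)) = H.pr i (ι (ε z))) (hd : ∀ z, ι (ε (H.d z)) = H.d (ι (ε z)))
    (hn : ∃ η : H.M →ₗ[A] H.M, (∀ i z, η (H.pr i z) = H.pr (i + 1) (η z)) ∧
      ∀ z, z - ι (ε z) = H.d (η z) + η (H.d z)) : HA.{u, v, w} A B p :=
  have hpι : ∀ i z, ι (ε (H.pr i (ι z))) = H.pr i (ι z) := fun i z => by rw [hp, hr]
  have hdι : ∀ z, ι (ε (H.d (ι z))) = H.d (ι z) := fun z => by rw [hd, hr]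
  have hεp : ∀ i z, ε (H.pr i (ι (ε z))) = ε (H.pr i z) := fun i z => by
    rw [← hp, hr]
  have hεd : ∀ z, ε (H.d (ι (ε z))) = ε (H.d z) := fun z => by
    rw [← hd, hr]
  { M := N
    pr := fun i => ε ∘ₗ H.pr i ∘ₗ ι
    pr_pr := fun i z => by
      simp only [LinearMap.comp_apply]
      rw [hpι, H.pr_pr]
    pr_ne := fun i j hij z => by
      simp only [LinearMap.comp_apply]
      rw [hpι, H.pr_ne i j hij, map_zero]
    pr_top := fun i hi z => by
      simp only [LinearMap.comp_apply]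
      rw [H.pr_top i hi, map_zero]
    pr_sum := fun z => by
      simp only [LinearMap.comp_apply]
      rw [← map_sum, ← H.pr_sum, hr]
    d := ε ∘ₗ H.d ∘ₗ ι
    dd := fun z => by
      simp only [LinearMap.comp_apply]
      rw [hdι, H.dd, map_zero]
    d_pr := fun i z => by
      simp only [LinearMap.comp_apply]
      rw [hpι, hdι, H.d_pr]
    d_zero := fun z => by
      simp only [LinearMap.comp_apply]
      rw [hpι, H.d_zero, map_zero]
    ρ := fun b => ε ∘ₗ H.ρ b ∘ₗ ι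
    ρ_pr := fun b i z => by
      simp only [LinearMap.comp_apply]
      rw [hpι, H.ρ_pr, hεp]
    ρ_d := fun b z => by
      simp only [LinearMap.comp_apply]
      rw [hεd, hdι, H.ρ_d]
    one := by
      obtain ⟨η, h1, h2⟩ := H.one
      refine ⟨ε ∘ₗ η ∘ₗ ι, fun i z => ?_, fun z => ?_⟩
      · simp only [LinearMap.comp_apply]
        rw [hpι, h1, hεp]
      · simp only [LinearMap.comp_apply]
        rw [hεd, hdι, ← map_add, ← h2, map_sub, hr]
    add := fun b c => by
      obtain ⟨η, h1, h2⟩ := H.add b c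
      refine ⟨ε ∘ₗ η ∘ₗ ι, fun i z => ?_, fun z => ?_⟩
      · simp only [LinearMap.comp_apply]
        rw [hpι, h1, hεp]
      · simp only [LinearMap.comp_apply]
        rw [hεd, hdι, ← map_add, ← map_add, ← h2, map_sub]
    mul := fun b c => by
      obtain ⟨η, h1, h2⟩ := H.mul b c
      obtain ⟨θ, k1, k2⟩ := hn
      refine ⟨ε ∘ₗ (η + H.ρ b ∘ₗ θ ∘ₗ H.ρ c) ∘ₗ ι, fun i z => ?_, fun z => ?_⟩
      · simp only [LinearMap.comp_apply, LinearMap.add_apply]
        rw [hpι, h1, H.ρ_pr, k1, H.ρ_pr, ← map_add, hεp]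
      · simp only [LinearMap.comp_apply, LinearMap.add_apply]
        rw [hεd, hdι]
        have e1 := h2 (ι z)
        have e2 := k2 (H.ρ c (ι z))
        have e3 : H.ρ b (H.ρ c (ι z)) - H.ρ b (ι (ε (H.ρ c (ι z)))) =
            H.d (H.ρ b (θ (H.ρ c (ι z)))) + H.ρ b (θ (H.ρ c (H.d (ι z)))) := by
          rw [← map_sub, e2, map_add, H.ρ_d, H.ρ_d]
        rw [← map_sub, ← map_add]
        congr 1
        rw [map_add]
        calc H.ρ (b * c) (ι z) - H.ρ b (ι (ε (H.ρ c (ι z))))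
            = (H.ρ (b * c) (ι z) - H.ρ b (H.ρ c (ι z))) +
              (H.ρ b (H.ρ c (ι z)) - H.ρ b (ι (ε (H.ρ c (ι z))))) := by abel
          _ = _ := by rw [e1, e3]; abel
    alg := fun a => by
      obtain ⟨η, h1, h2⟩ := H.alg a
      refine ⟨ε ∘ₗ η ∘ₗ ι, fun i z => ?_, fun z => ?_⟩
      · simp only [LinearMap.comp_apply]
        rw [hpι, h1, hεp]
      · simp only [LinearMap.comp_apply]
        rw [hεd, hdι, ← map_add, ← h2, map_sub, map_smul, hr] }

/-- `H'` is a deformation retract of `H` -/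
def Red (H H' : HA.{u, v, w} A B p) : Prop :=
  ∃ (ι : H'.M →ₗ[A] H.M) (ε : H.M →ₗ[A] H'.M),
    (∀ z, ε (ι z) = z) ∧ (∀ z, ι (H'.d z) = H.d (ι z)) ∧ (∀ z, ε (H.d z) = H'.d (ε z)) ∧
    (∀ i z, ι (H'.pr i z) = H.pr i (ι z)) ∧ (∀ i z, ε (H.pr i z) = H'.pr i (ε z)) ∧
    (∀ b z, H'.ρ b z = ε (H.ρ b (ι z))) ∧ NullH H (LinearMap.id - ι ∘ₗ ε)

lemma red_refl (H : HA.{u, v, w} A B p) : Red H H := by
  refine ⟨LinearMap.id, LinearMap.id, fun _ => rfl, fun _ => rfl, fun _ => rfl, fun _ _ => rfl,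
    fun _ _ => rfl, fun _ _ => rfl, 0, fun i z => ?_, fun z => ?_⟩
  · simp
  · simp

lemma red_trans {H H1 H2 : HA.{u, v, w} A B p} (h : Red H H1) (h' : Red H1 H2) : Red H H2 := by
  obtain ⟨ι, ε, a1, a2, a3, a4, a5, a6, η, a7, a8⟩ := h
  obtain ⟨ι', ε', b1, b2, b3, b4, b5, b6, η', b7, b8⟩ := h'
  refine ⟨ι ∘ₗ ι', ε' ∘ₗ ε, fun z => ?_, fun z => ?_, fun z => ?_, fun i z => ?_, fun i z => ?_,
    fun b z => ?_, η + ι ∘ₗ η' ∘ₗ ε, fun i z => ?_, fun z => ?_⟩
  · simp only [LinearMap.comp_apply]; rw [a1, b1]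
  · simp only [LinearMap.comp_apply]; rw [b2, a2]
  · simp only [LinearMap.comp_apply]; rw [a3, b3]
  · simp only [LinearMap.comp_apply]; rw [b4, a4]
  · simp only [LinearMap.comp_apply]; rw [a5, b5]
  · simp only [LinearMap.comp_apply]; rw [b6, a6]
  · simp only [LinearMap.comp_apply, LinearMap.add_apply]
    rw [a7, a5, b7, a4, map_add]
  · have e1 := a8 z
    have e2 := b8 (ε z)
    simp only [LinearMap.comp_apply, LinearMap.add_apply, LinearMap.sub_apply,
      LinearMap.id_apply] at e1 e2 ⊢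
    have e3 : ι (ε z) - ι (ι' (ε' (ε z))) = H.d (ι (η' (ε z))) + ι (η' (ε (H.d z))) := by
      rw [← map_sub, e2, map_add, a2, a3]
    rw [map_add]
    calc z - ι (ι' (ε' (ε z))) = (z - ι (ε z)) + (ι (ε z) - ι (ι' (ε' (ε z)))) := by abel
      _ = _ := by rw [e1, e3]; abel

lemma red_retr (H : HA.{u, v, w} A B p) (N : Type w) [AddCommGroup N] [Module A N] [Module.Finite A N]
    [Module.Free A N] (ι : N →ₗ[A] H.M) (ε : H.M →ₗ[A] N) (hr : ∀ z, ε (ι z) = z)
    (hp : ∀ i z, ι (ε (H.pr i z)) = H.pr i (ι (ε z))) (hd : ∀ z, ι (ε (H.d z)) = H.d (ι (ε z)))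
    (hn : ∃ η : H.M →ₗ[A] H.M, (∀ i z, η (H.pr i z) = H.pr (i + 1) (η z)) ∧
      ∀ z, z - ι (ε z) = H.d (η z) + η (H.d z)) : Red H (retr H N ι ε hr hp hd hn) := by
  have k1 : ∀ z, ι (ε (H.d (ι z))) = H.d (ι z) := fun z => by rw [hd, hr]
  have k2 : ∀ z, ε (H.d z) = ε (H.d (ι (ε z))) := fun z => by rw [← hd, hr]
  have k3 : ∀ i z, ι (ε (H.pr i (ι z))) = H.pr i (ι z) := fun i z => by rw [hp, hr]
  have k4 : ∀ i z, ε (H.pr i z) = ε (H.pr i (ι (ε z))) := fun i z => by rw [← hp, hr]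
  refine ⟨ι, ε, hr, k1, k2, k3, k4, fun b z => rfl, ?_⟩
  · obtain ⟨η, h1, h2⟩ := hn
    exact ⟨η, h1, h2⟩

end

section

variable {A : Type u} [CommRing A] [IsLocalRing A]

/-- a coordinate which is one on an element outside `m M` -/
lemma exists_functional {M : Type w} [AddCommGroup M] [Module A M] [Module.Free A M] (y : M)
    (hy : y ∉ maximalIdeal A • (⊤ : Submodule A M)) : ∃ l : M →ₗ[A] A, l y = 1 := by
  classical
  let b := Module.Free.chooseBasis A M
  have h : ∃ i, b.repr y i ∉ maximalIdeal A := by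
    by_contra hc
    push Not at hc
    apply hy
    rw [← b.linearCombination_repr y, Finsupp.linearCombination_apply, Finsupp.sum]
    exact Submodule.sum_mem _ fun i _ => Submodule.smul_mem_smul (hc i) Submodule.mem_top
  obtain ⟨i, hi⟩ := h
  have hu : IsUnit (b.repr y i) := by
    by_contra hn
    exact hi ((mem_maximalIdeal _).2 hn)
  obtain ⟨c, hc⟩ := hu
  refine ⟨(↑(c⁻¹) : A) • b.coord i, ?_⟩
  rw [LinearMap.smul_apply, Module.Basis.coord_apply, ← hc, smul_eq_mul, Units.inv_mul]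

/-- a retract of a finite free module is free -/
lemma free_of_retract {M N : Type w} [AddCommGroup M] [Module A M] [Module.Free A M]
    [Module.Finite A M] [AddCommGroup N] [Module A N] (ι : N →ₗ[A] M) (ε : M →ₗ[A] N)
    (hr : ∀ z, ε (ι z) = z) : Module.Finite A N ∧ Module.Free A N := by
  have h1 : Module.Finite A N := Module.Finite.of_surjective ε fun z => ⟨ι z, hr z⟩
  have h2 : Module.Projective A N := Module.Projective.of_split ι ε (LinearMap.ext hr)
  exact ⟨h1, Module.free_of_flat_of_isLocalRing⟩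

lemma finrank_lt {M N : Type w} [AddCommGroup M] [Module A M] [Module.Free A M]
    [Module.Finite A M] [AddCommGroup N] [Module A N] [Module.Free A N] [Module.Finite A N]
    (ε : M →ₗ[A] N) (hs : Function.Surjective ε) (y : M) (hy : y ≠ 0) (h0 : ε y = 0) :
    Module.finrank A N < Module.finrank A M := by
  have h1 : Module.finrank A N ≤ Module.finrank A M := LinearMap.finrank_le_finrank_of_surjective hs
  refine lt_of_le_of_ne h1 fun h => hy ?_
  let e : N ≃ₗ[A] M := LinearEquiv.ofFinrankEq N M h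
  have h2 : Function.Surjective (e.toLinearMap ∘ₗ ε) := e.surjective.comp hs
  have h3 := OrzechProperty.injective_of_surjective_endomorphism _ h2
  apply h3
  rw [LinearMap.comp_apply, h0, map_zero, map_zero]

variable {B : Type v} [CommRing B] [Algebra A B] {p : ℕ}

lemma step (H : HA.{u, v, w} A B p) (hm : ¬ H.Min) :
    ∃ H' : HA.{u, v, w} A B p, Red H H' ∧
      Module.finrank A H'.M < Module.finrank A H.M := by
  unfold HA.Min at hm
  push Not at hm
  obtain ⟨z, hz⟩ := hm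
  -- a homogeneous element
  have h1 : ∃ j, H.d (H.pr (j + 1) z) ∉ maximalIdeal A • (⊤ : Submodule A H.M) := by
    by_contra hc
    push Not at hc
    apply hz
    rw [H.pr_sum z, map_sum]
    refine Submodule.sum_mem _ fun i _ => ?_
    rcases Nat.eq_zero_or_pos i with h | h
    · rw [h, H.d_zero]; exact Submodule.zero_mem _
    · obtain ⟨j, rfl⟩ : ∃ j, i = j + 1 := ⟨i - 1, by omega⟩
      exact hc j
  obtain ⟨j, hj⟩ := h1
  obtain ⟨x, hx⟩ : ∃ x, x = H.pr (j + 1) z := ⟨_, rfl⟩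
  obtain ⟨y, hy⟩ : ∃ y, y = H.d x := ⟨_, rfl⟩
  rw [← hx, ← hy] at hj
  have hxp : ∀ i, H.pr i x = if i = j + 1 then x else 0 := by
    intro i
    by_cases h : i = j + 1
    · rw [if_pos h, h, hx, H.pr_pr]
    · rw [if_neg h, hx, H.pr_ne _ _ h]
  have hyj : y = H.pr j (H.d z) := by rw [hy, hx, H.d_pr]
  have hyp : ∀ i, H.pr i y = if i = j then y else 0 := by
    intro i
    by_cases h : i = j
    · rw [if_pos h, h, hyj, H.pr_pr]
    · rw [if_neg h, hyj, H.pr_ne _ _ h]
  have hdy : H.d y = 0 := by rw [hy, H.dd]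
  obtain ⟨l0, hl0⟩ := exists_functional y hj
  obtain ⟨l, hl⟩ : ∃ l : H.M →ₗ[A] A, l = l0 ∘ₗ H.pr j := ⟨_, rfl⟩
  have hly : l y = 1 := by
    rw [hl, LinearMap.comp_apply, hyp, if_pos rfl, hl0]
  have hlp : ∀ i z, l (H.pr i z) = if i = j then l z else 0 := by
    intro i z
    rw [hl, LinearMap.comp_apply]
    by_cases h : i = j
    · rw [if_pos h, h, H.pr_pr]; rfl
    · rw [if_neg h, H.pr_ne _ _ (Ne.symm h), map_zero]
  have hlx : l x = 0 := by
    rw [hx, hlp, if_neg (by omega)]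
  have hldp : ∀ i z, l (H.d (H.pr i z)) = if i = j + 1 then l (H.d z) else 0 := by
    intro i z
    rcases Nat.eq_zero_or_pos i with h | h
    · rw [if_neg (by omega), h, H.d_zero, map_zero]
    · obtain ⟨i', rfl⟩ : ∃ i', i = i' + 1 := ⟨i - 1, by omega⟩
      rw [H.d_pr, hlp]
      by_cases h' : i' = j
      · rw [if_pos h', if_pos (by omega)]
      · rw [if_neg h', if_neg (by omega)]
  -- the idempotent
  obtain ⟨e0, he0⟩ : ∃ e0 : H.M →ₗ[A] H.M, ∀ z, e0 z = z - l (H.d z) • x - l z • y :=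
    ⟨LinearMap.id - (l ∘ₗ H.d).smulRight x - l.smulRight y, fun z => by simp⟩
  have hex : e0 x = 0 := by
    rw [he0, ← hy, hly, hlx, one_smul, zero_smul, sub_self, sub_zero]
  have hey : e0 y = 0 := by
    rw [he0, hdy, hly, map_zero, one_smul, zero_smul, sub_zero, sub_self]
  have hee : ∀ z, e0 (e0 z) = e0 z := by
    intro z
    conv_lhs => rw [he0 z]
    rw [map_sub, map_sub, map_smul, map_smul, hex, hey, smul_zero, smul_zero, sub_zero, sub_zero]
  have hed : ∀ z, e0 (H.d z) = H.d (e0 z) := by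
    intro z
    rw [he0, he0, H.dd, map_zero, zero_smul, sub_zero, map_sub, map_sub, map_smul, map_smul,
      hdy, smul_zero, sub_zero, ← hy]
  have hep : ∀ i z, e0 (H.pr i z) = H.pr i (e0 z) := by
    intro i z
    rw [he0, he0, map_sub, map_sub, map_smul, map_smul, hxp, hyp, hlp, hldp]
    by_cases h1 : i = j + 1
    · rw [if_pos h1, if_pos h1, if_neg (by omega), if_neg (by omega), zero_smul, smul_zero]
    · rw [if_neg h1, if_neg h1]
      by_cases h2 : i = j
      · rw [if_pos h2, if_pos h2, zero_smul, smul_zero]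
      · rw [if_neg h2, if_neg h2, zero_smul, zero_smul, smul_zero, smul_zero]
  -- the retract
  obtain ⟨ι, hι⟩ : ∃ ι : LinearMap.range e0 →ₗ[A] H.M, ∀ z, ι z = z :=
    ⟨(LinearMap.range e0).subtype, fun _ => rfl⟩
  obtain ⟨ε, hε⟩ : ∃ ε : H.M →ₗ[A] LinearMap.range e0, ∀ z, (ε z : H.M) = e0 z :=
    ⟨e0.rangeRestrict, fun _ => rfl⟩
  have hr : ∀ z, ε (ι z) = z := by
    rintro ⟨z, z', rfl⟩
    apply Subtype.ext
    rw [hε, hι, hee]
  have hιε : ∀ z, ι (ε z) = e0 z := fun z => by rw [hι, hε]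
  obtain ⟨f1, f2⟩ := free_of_retract ι ε hr
  have hn : ∃ η : H.M →ₗ[A] H.M, (∀ i z, η (H.pr i z) = H.pr (i + 1) (η z)) ∧
      ∀ z, z - ι (ε z) = H.d (η z) + η (H.d z) := by
    refine ⟨l.smulRight x, fun i z => ?_, fun z => ?_⟩
    · rw [LinearMap.smulRight_apply, LinearMap.smulRight_apply, map_smul, hlp, hxp]
      by_cases h : i = j
      · rw [if_pos h, if_pos (by omega)]
      · rw [if_neg h, if_neg (by omega), zero_smul, smul_zero]
    · rw [LinearMap.smulRight_apply, LinearMap.smulRight_apply, map_smul, ← hy, hιε, he0]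
      abel
  have hy0 : ε y = 0 := by
    apply Subtype.ext
    rw [hε, hey]; rfl
  refine ⟨retr H _ ι ε hr (fun i z => by rw [hιε, hιε, hep]) (fun z => by rw [hιε, hιε, hed]) hn,
    red_retr H _ ι ε hr _ _ hn, ?_⟩
  exact finrank_lt ε (fun z => ⟨ι z, hr z⟩) y (fun h => hj (by rw [h]; exact Submodule.zero_mem _)) hy0

end

theorem gMINRED : G_MINRED.{u, v, w} := by
  intro A _ _ B _ _ p H
  suffices h : ∀ (n : ℕ) (H : HA.{u, v, w} A B p), Module.finrank A H.M ≤ n →
      ∃ H' : HA.{u, v, w} A B p, H'.Min ∧ Red H H' by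
    obtain ⟨H', h1, ι, ε, h2⟩ := h _ H le_rfl
    exact ⟨H', ι, ε, h1, h2⟩
  intro n
  induction n with
  | zero =>
    intro H hH
    by_cases hm : H.Min
    · exact ⟨H, hm, red_refl H⟩
    · obtain ⟨H', _, h2⟩ := step H hm
      omega
  | succ n ih =>
    intro H hH
    by_cases hm : H.Min
    · exact ⟨H, hm, red_refl H⟩
    · obtain ⟨H', h1, h2⟩ := step H hm
      obtain ⟨H2, h3, h4⟩ := ih H' (by omega)
      exact ⟨H2, h3, red_trans h1 h4⟩

end Pool.Agent.Helper59.FB
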